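import Pool.Agent.Y6.S.Stm

/-! The parameters `Sq6` satisfy `Sq5` with other `ℓ`. -/

set_option autoImplicit false

namespace Pool.Agent.Y6.S

open Pool.Agent.Y5.S2 (Sq6)
open Pool.Agent.Y8.EP (Sq5)

/-- the damping rates for `Sq5` -/
noncomputable def ℓ5 (κ μ : ℝ) (L : ℕ → ℝ) : ℕ → ℝ
  | 0 => L 0 / (10 ^ 6 * μ)
  | n + 1 => 9 / 10 * (κ ^ n * L n)

theorem sq65 {κ μ lam Λ M : ℝ} {L C ℓ : ℕ → ℝ} {B : ℕ → ℕ → ℝ} (h : Sq6 κ μ lam Λ M L C ℓ B) :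
    Sq5 κ μ lam Λ M L C (ℓ5 κ μ L) B := by
  have hμ : 0 < μ := lt_of_lt_of_le (by norm_num) h.μ_big
  have hL0 : 0 < L 0 := lt_of_lt_of_le one_pos h.L0
  have hκL : ∀ n, κ ^ n * L n = μ ^ n * L 0 := by
    intro n
    induction n with
    | zero => simp
    | succ n ih =>
      rw [h.L_succ, pow_succ, pow_succ, show κ ^ n * κ * (lam * L n) = (κ * lam) * (κ ^ n * L n) by
        ring, ih, ← h.μ_eq]
      ring
  refine ⟨h.κ0, h.κ1, h.κs, h.μ_eq, h.μ_big, h.L0, h.L_succ, h.Λ_ge, h.Λ_sq.le, h.M_one,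
    h.exp_big, h.C_lo, h.C_hi, h.B_lo, h.B_hi, ?_, ?_, fun n => rfl, ?_⟩
  · rintro (_ | n)
    · show 0 ≤ L 0 / (10 ^ 6 * μ)
      positivity
    · show 0 ≤ 9 / 10 * (κ ^ n * L n)
      rw [hκL]
      positivity
  · show 10 ^ 6 * (L 0 / (10 ^ 6 * μ) * μ) ≤ L 0
    apply le_of_eq
    field_simp
  · refine ⟨min (L 0 / (10 ^ 6 * μ)) (9 / 10 * (L 0 / μ)), lt_min (by positivity) (by positivity),
      ?_⟩
    rintro (_ | n)
    · rw [Nat.mul_zero, pow_zero, mul_one]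
      exact min_le_left _ _
    · show _ ≤ 9 / 10 * (κ ^ n * L n)
      rw [hκL, pow_mul, h.Λ_sq]
      calc min (L 0 / (10 ^ 6 * μ)) (9 / 10 * (L 0 / μ)) * μ ^ (n + 1)
          ≤ (9 / 10 * (L 0 / μ)) * μ ^ (n + 1) := by
            gcongr
            exact min_le_right _ _
        _ = _ := by
            rw [pow_succ]
            field_simp

theorem t_S65 : S_S65 := fun _ _ _ _ _ _ _ _ _ h => ⟨_, sq65 h⟩

end Pool.Agent.Y6.S
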