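import Pool.Agent.Y6.S.AsmT
import Pool.Agent.Y261.SK.KB
import Pool.Agent.Y68.SK.Rap
import Pool.Agent.Y297.SK.Calc
import Pool.Agent.Y438.SK.NF
import Pool.Agent.Y104.SK.RB
import Pool.Agent.Y86.SK.Wt
import Pool.Agent.Y87.SK.Xe1
import Pool.Agent.Y971.SK.XE2
import Pool.Agent.Y678.SK.Est
import Pool.Agent.Y61.SK.XST
import Pool.Agent.Y665.SK.Pertx
import Pool.Agent.Y529.SK.PertV
import Pool.Agent.Y941.SK.Resc

/-! The reduced system and its rescaling: assembly. -/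

set_option autoImplicit false

namespace Pool.Agent.Y6.S

open Pool.Agent.Y5.S2 (S_DYN6)

theorem t_PERTX : S_PERTX :=
  Pool.Agent.Y665.SK.t_PERTXA t_S65 Pool.Agent.Y68.SK.t_RAP Pool.Agent.Y297.SK.t_CALC
    (Pool.Agent.Y61.SK.t_XST Pool.Agent.Y68.SK.t_RAP)

theorem t_RB : S_RB := Pool.Agent.Y104.SK.t_RB t_S65 Pool.Agent.Y261.SK.t_KB Pool.Agent.Y68.SK.t_RAP

theorem t_XE1 : S_XE1 :=
  Pool.Agent.Y87.SK.t_XEA1 t_S65 Pool.Agent.Y261.SK.t_KB Pool.Agent.Y68.SK.t_RAP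
    Pool.Agent.Y86.SK.t_WT

theorem t_XE2 : S_XE2 :=
  Pool.Agent.Y971.SK.t_XEA2 t_S65 Pool.Agent.Y261.SK.t_KB Pool.Agent.Y68.SK.t_RAP t_RB
    Pool.Agent.Y86.SK.t_WT

theorem t_EST7 : S_EST7 :=
  Pool.Agent.Y678.SK.t_ESTA7 t_S65 Pool.Agent.Y261.SK.t_KB Pool.Agent.Y68.SK.t_RAP t_RB
    Pool.Agent.Y86.SK.t_WT t_XE1 t_XE2

theorem t_PERTV : S_PERTV :=
  Pool.Agent.Y529.SK.t_PERTVA t_S65 Pool.Agent.Y68.SK.t_RAP Pool.Agent.Y297.SK.t_CALC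
    (Pool.Agent.Y438.SK.t_NF Pool.Agent.Y68.SK.t_RAP Pool.Agent.Y297.SK.t_CALC)
    Pool.Agent.Y86.SK.t_WT t_EST7

/-- The full system gives the reduced system. -/
theorem t_PERTR : S_PERTR := t_PERTR_of t_PERTX t_PERTV

/-- The dynamics of the full system follows from that of the rescaled reduced system. -/
theorem t_DYN6_of (h : Pool.Agent.Y8.SK.S_ODERT) : S_DYN6 :=
  t_DYNT t_PERTR Pool.Agent.Y941.SK.t_RESCR h

end Pool.Agent.Y6.S
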