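import Pool.Agent.Y6.S.Conv

/-! Assembly: the reduced system, and the dynamics of the full system. -/

open Set Filter Topology MeasureTheory

set_option autoImplicit false

namespace Pool.Agent.Y6.S

open Pool.Agent.Y5.D Pool.Agent.Y5.E
open Pool.Agent.Y5.F (Aq Awq Yk Wk)
open Pool.Agent.Y5.S2 (Sq6 Rot2 Om Az Dis2 NSol2 Init2 S_DYN6)
open Pool.Agent.Y710.EP (nm nm_nn)

theorem t_PERTR_of (hX : S_PERTX) (hV : S_PERTV) : S_PERTR := by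
  intro J g σ τ κ μ lam Λ M a D₁ L C ℓ B D c hK hS hR hD ha
  obtain ⟨N₂, hN, H⟩ := hV J g σ τ κ μ lam Λ M a D₁ L C ℓ B D c hK hS hR hD ha
  refine ⟨N₂, hN, fun Q A0 T z hQ hz hI => ?_⟩
  obtain ⟨v1, v2, v3⟩ := H Q T z _ _ _ hQ hz rfl rfl rfl
  obtain ⟨f, x1, x2, x3, x4, x5, x6, x7, x8⟩ :=
    hX J g σ τ κ μ lam Λ M a D₁ L C ℓ B D c hK hS hR hD ha Q A0 T z _ _
      (lt_of_lt_of_le one_pos hQ) hz hI rfl rfl
  refine ⟨_, f, ⟨x1, x2, x3, x4, fun G t _ => nm_nn _, v1, v2, v3, x5, x6, x7, x8, hI.1,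
    fun n => hI.2.1 n, fun n => ?_⟩⟩
  show √(∑' j : J, if g j = n then z (Sum.inr j) 0 ^ 2 else 0) = 0
  have : (fun j : J => if g j = n then z (Sum.inr j) 0 ^ 2 else 0) = fun _ => 0 := by
    funext j
    rw [hI.2.2 j]
    simp
  rw [this, tsum_zero, Real.sqrt_zero]

end Pool.Agent.Y6.S
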