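import Pool.Agent.Y6.S.Asm
import Pool.Agent.Y8.SK.StT

/-! Assembly: the dynamics of the full system, with the rate of the blow-up. -/

open Set Filter Topology MeasureTheory

set_option autoImplicit false

namespace Pool.Agent.Y6.S

open Pool.Agent.Y5.D Pool.Agent.Y5.E
open Pool.Agent.Y5.F (Aq Awq Yk Wk)
open Pool.Agent.Y5.S2 (Sq6 Rot2 Om Az Dis2 NSol2 Init2 S_DYN6)
open Pool.Agent.Y8.SK (S_ODERT)

theorem t_DYNT : S_PERTR → S_RESCR → S_ODERT → S_DYN6 := by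
  intro hP hRe hO J g σ τ κ μ lam Λ M a D₁ L C ℓ B D c hK hS hR hD ha
  obtain ⟨N₂, hN, H⟩ := hP J g σ τ κ μ lam Λ M a D₁ L C ℓ B D c hK hS hR hD ha
  obtain ⟨hPe, hRe⟩ := hRe κ μ lam Λ M L C ℓ B hS
  obtain ⟨N₃, hN3, hRe⟩ := hRe N₂ hN
  obtain ⟨Q₀, T₁, hQ₀, hO⟩ := hO κ μ _ N₃ _ _ ℓ B hPe hN3
  refine ⟨Q₀, T₁, lt_of_lt_of_le one_pos hQ₀, fun T z hT hz hI => ?_⟩
  obtain ⟨v, f, hSu⟩ := H Q₀ (3 / 2) T z hQ₀ hz hI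
  obtain ⟨hSy, hY, hG⟩ := hRe Q₀ (3 / 2) T _ _ v f hQ₀ hT hSu
  obtain ⟨h1, h2⟩ := hO Q₀ le_rfl T _ _ _ _ hT hSy
  refine ⟨h1, ?_⟩
  rcases h2 with ⟨h2, C₀, h3⟩ | ⟨n₀, K₀, s, hs, h2⟩
  · refine Or.inl ⟨hG h2, C₀, fun t ht p => ?_⟩
    rw [hY p t ht, mul_assoc, mul_comm C₀]
    exact mul_le_mul_of_nonneg_left (h3 t ht p) (pow_nonneg hS.κ0.le p)
  · refine Or.inr ⟨n₀, K₀, s, hs, fun t ht k => ?_⟩
    rw [hY (n₀ + k) t ⟨hs.1.trans ht.1, ht.2⟩]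
    refine le_trans ?_ (h2 t ht k)
    exact mul_le_of_le_one_left (Real.sqrt_nonneg _) (pow_le_one₀ hS.κ0.le hS.κ1)

end Pool.Agent.Y6.S
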