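import Pool.Agent.Y6.S.Red
import Pool.Agent.Y5.S2.Stm
import Pool.Agent.Y710.EP.P4

/-!
The normal form of the other modes (two-speed corrections): definitions.

For the double group `G` (the groups `2 G`, `2 G + 1`) with the speed `O G`, the corrected other
modes are `v = z - J X1 - X2`, where `J = rt σ τ` is the rotation with the speed `1`.
-/

open Set Filter Topology MeasureTheory

set_option autoImplicit false

namespace Pool.Agent.Y6.S

open Pool.Agent.Y5.D Pool.Agent.Y5.E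
open Pool.Agent.Y5.F (Aq Awq)
open Pool.Agent.Y6.N (lin)
open Pool.Agent.Y5.S2 (Sq6 Rot2 Om Az Dis2 NSol2 Init2)
open Pool.Agent.Y710.EP (nm Pg Pl Pu Pm Po ww ee sA sU lc InG InLow InUp)
open Pool.Agent.Y8.EP (Sq5)

variable {J : Type}

/-! ### Rapidly decreasing vectors -/

/-- rapidly decreasing -/
def Rp (g : J → ℕ) (L : ℕ → ℝ) (z : Ix J → ℝ) : Prop :=
  ∀ k : ℕ, ∃ K, ∀ a, L (gr g a) ^ k * |z a| ≤ K

/-- rapidly decreasing, locally uniformly in time -/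
def RpU (g : J → ℕ) (L : ℕ → ℝ) (T : ℝ) (u : Ix J → ℝ → ℝ) : Prop :=
  ∀ k : ℕ, ∀ T' < T, ∃ K, ∀ t ∈ Icc 0 T', ∀ a, L (gr g a) ^ k * |u a t| ≤ K

/-! ### Rotations and weights -/

/-- the rotation of the other modes with the speed 1 -/
def rt (σ : J → J) (τ : J → ℝ) (z : Ix J → ℝ) : Ix J → ℝ
  | Sum.inl _ => 0
  | Sum.inr j => τ j * z (Sum.inr (σ j))

/-- the other modes, multiplied by a function of the double group -/
def wt (g : J → ℕ) (ω : ℕ → ℝ) (z : Ix J → ℝ) : Ix J → ℝ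
  | Sum.inl _ => 0
  | Sum.inr j => ω (g j / 2) * z (Sum.inr j)

/-- indicator of the double group `G` -/
def w1 (G q : ℕ) : ℝ := if q = G then 1 else 0

noncomputable def wα (O : ℕ → ℝ) (G q : ℕ) : ℝ := if q = G then 0 else O G / (O G ^ 2 - O q ^ 2)

noncomputable def wβ (O : ℕ → ℝ) (G q : ℕ) : ℝ := if q = G then 0 else O q / (O G ^ 2 - O q ^ 2)

/-- the symmetric bilinear term -/
noncomputable def bs (c : Ix J → Ix J → Ix J → ℝ) (u v : Ix J → ℝ) (i : Ix J) : ℝ :=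
  bl c u v i + bl c v u i

/-- the right side of the system without the rotation -/
noncomputable def rr (D : Ix J → Ix J → ℝ) (c : Ix J → Ix J → Ix J → ℝ) (z : Ix J → ℝ)
    (i : Ix J) : ℝ := bl c z z i - lin D z i

/-! ### The normal form (`O` are the speeds) -/

noncomputable def X1 (g : J → ℕ) (D : Ix J → Ix J → ℝ) (c : Ix J → Ix J → Ix J → ℝ)
    (O : ℕ → ℝ) (G : ℕ) (z : Ix J → ℝ) (i : Ix J) : ℝ :=
  1 / O G * (bl c (Pm z) (Pm z) i - lin D (Pm z) i) + bs c (Pm z) (wt g (wα O G) z) i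

noncomputable def X2 (g : J → ℕ) (σ : J → J) (τ : J → ℝ) (c : Ix J → Ix J → Ix J → ℝ)
    (O : ℕ → ℝ) (G : ℕ) (z : Ix J → ℝ) (i : Ix J) : ℝ :=
  bs c (Pm z) (wt g (wβ O G) (rt σ τ z)) i

/-- the corrected other modes of the double group `G` -/
noncomputable def vv (g : J → ℕ) (σ : J → J) (τ : J → ℝ) (D : Ix J → Ix J → ℝ)
    (c : Ix J → Ix J → Ix J → ℝ) (O : ℕ → ℝ) (G : ℕ) (z : Ix J → ℝ) : Ix J → ℝ :=
  wt g (w1 G) (fun i => z i - rt σ τ (X1 g D c O G z) i - X2 g σ τ c O G z i)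

noncomputable def E1 (g : J → ℕ) (D : Ix J → Ix J → ℝ) (c : Ix J → Ix J → Ix J → ℝ)
    (O : ℕ → ℝ) (G : ℕ) (z : Ix J → ℝ) (i : Ix J) : ℝ :=
  1 / O G * (bs c (Pm z) (Pm (rr D c z)) i - lin D (Pm (rr D c z)) i)
  + bs c (Pm (rr D c z)) (wt g (wα O G) z) i + bs c (Pm z) (wt g (wα O G) (rr D c z)) i

noncomputable def E2 (g : J → ℕ) (σ : J → J) (τ : J → ℝ) (D : Ix J → Ix J → ℝ)
    (c : Ix J → Ix J → Ix J → ℝ) (O : ℕ → ℝ) (G : ℕ) (z : Ix J → ℝ) (i : Ix J) : ℝ :=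
  bs c (Pm (rr D c z)) (wt g (wβ O G) (rt σ τ z)) i
  + bs c (Pm z) (wt g (wβ O G) (rt σ τ (rr D c z))) i

/-- the right side of the equation of the corrected other modes without the rotation -/
noncomputable def ff (g : J → ℕ) (σ : J → J) (τ : J → ℝ) (D : Ix J → Ix J → ℝ)
    (c : Ix J → Ix J → Ix J → ℝ) (O : ℕ → ℝ) (G : ℕ) (z : Ix J → ℝ) : Ix J → ℝ :=
  wt g (w1 G) (fun i => -lin D (Po z) i + bs c (Pm z) (wt g (w1 G) z) i + bl c (Po z) (Po z) i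
    - rt σ τ (E1 g D c O G z) i - E2 g σ τ D c O G z i)

/-! ### Sizes -/

/-- bound of `rr` in the group `p` -/
noncomputable def TS (κ q : ℝ) (L : ℕ → ℝ) (g : J → ℕ) (z : Ix J → ℝ) (p : ℕ) : ℝ :=
  L p * (κ ^ p + sA q (ee g z) p + nm (Pu g p z)) * (nm (Pu g p z) + Zp (ee g z) p)

noncomputable def TTS (κ q : ℝ) (L : ℕ → ℝ) (g : J → ℕ) (z : Ix J → ℝ) (m : ℕ) : ℝ :=
  √(∑' k : ℕ, TS κ q L g z (m + k) ^ 2)

noncomputable def RS (κ q : ℝ) (L : ℕ → ℝ) (g : J → ℕ) (z : Ix J → ℝ) (m : ℕ) : ℝ :=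
  (κ ^ m + sA q (ee g z) m + nm (Pu g m z)) * (TTS κ q L g z m + Zp (TS κ q L g z) m)
  + (sA q (TS κ q L g z) m + TTS κ q L g z m) * (nm (Pu g m z) + Zp (ee g z) m)

/-- products of two other modes -/
noncomputable def WS (q : ℝ) (L : ℕ → ℝ) (g : J → ℕ) (z : Ix J → ℝ) (m : ℕ) : ℝ :=
  L m * (sA q (ww g z) m + nm (Pu g m (Po z))) * nm (Pu g m (Po z))
  + (if m = 0 then 0 else L (m - 1) * sA q (ww g z) m * ww g z (m - 1))

end Pool.Agent.Y6.S
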