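import Pool.Agent.Y8.EP.Stm

/-!
Navier-Stokes equations with an additional skew-adjoint linear term of order 2: the reduced
systems. `x n` are the main modes, `w n` the norms of the other modes of the group `n`, `v G` the
norms of the corrected other modes (normal form) of the double group `{2 G, 2 G + 1}`, which
rotate with the speed `Q * κ^(2G) * L (2G)`. The constant `N` is small compared with `exp μ`;
the constant `N₂` is arbitrary (`Q` is chosen after it).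
-/

open Set Filter Topology MeasureTheory

set_option autoImplicit false

namespace Pool.Agent.Y6.S

open Pool.Agent.Y5.E (Yt Wt At Aw Ut Uw loc)
open Pool.Agent.Y5.F (Aq Awq vfk Yk Wk)
open Pool.Agent.Y5.D (vf3)

/-- the two groups below `m` -/
noncomputable def Zp (b : ℕ → ℝ) (m : ℕ) : ℝ :=
  (if m = 0 then 0 else b (m - 1)) + (if m ≤ 1 then 0 else b (m - 2))

/-! ### The unscaled system -/

/-- bound of the derivatives of the modes of the group `m` (without the rotation) -/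
noncomputable def Tq (κ q : ℝ) (L : ℕ → ℝ) (x w : ℕ → ℝ → ℝ) (m : ℕ) (t : ℝ) : ℝ :=
  L m * (κ ^ m + Aq q x w m t + √(Yt x w m t)) *
    (√(Yt x w m t) + Zp (fun p => |x p t| + w p t) m)

noncomputable def ATq (κ q : ℝ) (L : ℕ → ℝ) (x w : ℕ → ℝ → ℝ) (m : ℕ) (t : ℝ) : ℝ :=
  ∑ p ∈ Finset.range m, q ^ (m - 1 - p) * Tq κ q L x w p t

noncomputable def TTq (κ q : ℝ) (L : ℕ → ℝ) (x w : ℕ → ℝ → ℝ) (m : ℕ) (t : ℝ) : ℝ :=
  √(∑' k : ℕ, Tq κ q L x w (m + k) t ^ 2)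

/-- the remainder in the normal form, times `Q * κ ^ m` -/
noncomputable def Rq (κ q : ℝ) (L : ℕ → ℝ) (x w : ℕ → ℝ → ℝ) (m : ℕ) (t : ℝ) : ℝ :=
  (κ ^ m + Aq q x w m t + √(Yt x w m t)) *
    (TTq κ q L x w m t + Zp (fun p => Tq κ q L x w p t) m)
  + (ATq κ q L x w m t + TTq κ q L x w m t) *
    (√(Yt x w m t) + Zp (fun p => |x p t| + w p t) m)

/-- The reduced system. -/
structure SuR (κ μ q N N₂ Q A0 : ℝ) (L C ℓ : ℕ → ℝ) (B : ℕ → ℕ → ℝ) (T : ℝ)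
    (x w v f : ℕ → ℝ → ℝ) : Prop where
  dx : ∀ n, ∀ t ∈ Ico 0 T, HasDerivWithinAt (x n)
    (vf3 L C ℓ B (fun m => x m t) n + f n t) (Ico 0 T) t
  fb : ∀ n, ∀ t ∈ Ico 0 T, |f n t| ≤ N * (
    L n * (κ ^ n + Aq q x w n t + √(Yt x w n t)) * √(Wt w n t)
    + Uw L w n t * √(Yt x w n t) + L n * Awq q w n t * √(Yt x w (n + 1) t) + loc L x w n t)
  w0 : ∀ n, ∀ t ∈ Ico 0 T, 0 ≤ w n t
  wc : ∀ n, ContinuousOn (w n) (Ico 0 T)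
  v0 : ∀ G, ∀ t ∈ Ico 0 T, 0 ≤ v G t
  vc : ∀ G, ContinuousOn (v G) (Ico 0 T)
  -- the correction
  vw : ∀ G, ∀ t ∈ Ico 0 T, |√(w (2 * G) t ^ 2 + w (2 * G + 1) t ^ 2) - v G t| ≤
    N₂ / (Q * (κ ^ (2 * G) * L (2 * G))) * Tq κ q L x w (2 * G) t
  -- the corrected other modes
  dv : ∀ G, ∀ t ∈ Ico 0 T, ∃ D, HasDerivWithinAt (fun τ => v G τ ^ 2) D (Ico 0 T) t ∧
    D ≤ 2 * v G t * (
      -((if G = 0 then 0 else 1 / 1000 * (κ ^ (2 * G) * L (2 * G) / μ)) * v G t)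
      + N₂ * (L (2 * G) * (Aq q x w (2 * G) t + √(Yt x w (2 * G) t))) * v G t
      + N₂ / (Q * κ ^ (2 * G)) * Rq κ q L x w (2 * G) t
      + N₂ * (L (2 * G) * (Awq q w (2 * G) t + √(Wt w (2 * G) t)) * √(Wt w (2 * G) t)
        + (if G = 0 then 0 else L (2 * G - 1) * Awq q w (2 * G) t * w (2 * G - 1) t)))
  dY0 : ∀ t ∈ Ico 0 T, ∃ D, HasDerivWithinAt (Yt x w 0) D (Ico 0 T) t ∧ D ≤ 0
  dY : ∀ n, ∀ t ∈ Ico 0 T, ∃ D, HasDerivWithinAt (Yt x w (n + 1)) D (Ico 0 T) t ∧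
    D ≤ 2 * (C n * L n * x n t ^ 2 + N * loc L x w (n + 1) t) * √(Yt x w (n + 1) t)
      + 2 * (1001 / 1000 * Ut L x (n + 1) t + N * Uw L w (n + 1) t - ℓ (n + 1)) *
        Yt x w (n + 1) t
      + 2 * N * (Ut L x (n + 1) t + κ ^ (n + 1) * L (n + 1)) *
        (√(Yt x w (n + 1) t) * √(Wt w (n + 1) t))
      + 2 * N * (L n * Aq q x w (n + 1) t * (|x n t| + w n t)) * √(Wt w (n + 1) t)
      + 2 * (if n % 2 = 0 then Q * (κ ^ n * L n) * (w n t * w (n + 1) t) else 0)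
  bdd : ∀ k : ℕ, ∀ T' < T, ∃ M, ∀ t ∈ Icc 0 T', ∀ n, L n ^ k * (|x n t| + w n t) ≤ M
  en : ∀ t ∈ Ico 0 T, Yt x w 0 t ≤ A0 ^ 2
  x0 : x 0 0 = A0
  xs : ∀ n, x (n + 1) 0 = 0
  ws : ∀ n, w n 0 = 0

/-! ### The rescaled system: `x n / κ ^ n`, `κ ^ n * L n`, `C n / κ`, `v G / κ ^ (2 G)`;
`lam` is now the ratio `μ` of the rates `κ ^ n * L n`. -/

/-- Conditions on the parameters of the rescaled system (as `Y8.EP.Pe`; new: `ℓ_zero`, `ℓ_succ`). -/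
structure Pe6 (κ lam N : ℝ) (L C ℓ : ℕ → ℝ) (B : ℕ → ℕ → ℝ) : Prop where
  κ0 : 0 < κ
  κ1 : κ ≤ 1
  κs : κ ≤ 1 / 1000
  κN : 1 ≤ κ * N
  lam_big : 10 ^ 30 ≤ lam
  L0 : 1 ≤ L 0
  L_succ : ∀ n, L (n + 1) = lam * L n
  N_one : 1 ≤ N
  N_le : N ≤ Real.exp (lam / 10 ^ 7)
  C_lo : ∀ n, Real.exp (-(601 / 10000) * lam) ≤ C n
  C_hi : ∀ n, C n ≤ Real.exp (-(599 / 10000) * lam)
  B_lo : ∀ i n, i < n → 999 / 1000 ≤ B i n
  B_hi : ∀ i n, i < n → B i n ≤ 1001 / 1000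
  ℓ_zero : |ℓ 0 * lam - 9 / 10 * L 0| ≤ 1 / 10 ^ 4 * L 0
  ℓ_succ : ∀ n, |ℓ (n + 1) - 9 / 10 * L n| ≤ 1 / 10 ^ 4 * L n

/-- bound of the derivatives of the modes of the group `m` (without the rotation) -/
noncomputable def Tk (κ lam : ℝ) (L : ℕ → ℝ) (x w : ℕ → ℝ → ℝ) (m : ℕ) (t : ℝ) : ℝ :=
  L m * (1 + At lam x w m t + √(Yk κ x w m t)) *
    (√(Yk κ x w m t) + Zp (fun p => |x p t| + w p t) m)

noncomputable def ATk (κ lam : ℝ) (L : ℕ → ℝ) (x w : ℕ → ℝ → ℝ) (m : ℕ) (t : ℝ) : ℝ :=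
  ∑ p ∈ Finset.range m, (√lam)⁻¹ ^ (m - 1 - p) * Tk κ lam L x w p t

noncomputable def TTk (κ lam : ℝ) (L : ℕ → ℝ) (x w : ℕ → ℝ → ℝ) (m : ℕ) (t : ℝ) : ℝ :=
  √(∑' k : ℕ, κ ^ (2 * k) * Tk κ lam L x w (m + k) t ^ 2)

/-- the remainder in the normal form, times `Q` -/
noncomputable def Rk (κ lam : ℝ) (L : ℕ → ℝ) (x w : ℕ → ℝ → ℝ) (m : ℕ) (t : ℝ) : ℝ :=
  (1 + At lam x w m t + √(Yk κ x w m t)) *
    (TTk κ lam L x w m t + Zp (fun p => Tk κ lam L x w p t) m)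
  + (ATk κ lam L x w m t + TTk κ lam L x w m t) *
    (√(Yk κ x w m t) + Zp (fun p => |x p t| + w p t) m)

/-- The rescaled reduced system (as `SysE`; new: the factor `1 + At + √Yk` in `fb`, the last three
lines of `dY`, `A0`, and `v` instead of `dw`). -/
structure SysR (κ lam N N₂ Q A0 : ℝ) (L C ℓ : ℕ → ℝ) (B : ℕ → ℕ → ℝ) (T : ℝ)
    (x w v f : ℕ → ℝ → ℝ) : Prop where
  dx : ∀ n, ∀ t ∈ Ico 0 T, HasDerivWithinAt (x n)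
    (vfk κ L C ℓ B (fun m => x m t) n + f n t) (Ico 0 T) t
  fb : ∀ n, ∀ t ∈ Ico 0 T, |f n t| ≤ N * (
    L n * (1 + At lam x w n t + √(Yk κ x w n t)) * √(Wk κ w n t)
    + Uw L w n t * √(Yk κ x w n t) + L n * Aw lam w n t * √(Yk κ x w (n + 1) t)
    + loc L x w n t)
  w0 : ∀ n, ∀ t ∈ Ico 0 T, 0 ≤ w n t
  wc : ∀ n, ContinuousOn (w n) (Ico 0 T)
  v0 : ∀ G, ∀ t ∈ Ico 0 T, 0 ≤ v G t
  vc : ∀ G, ContinuousOn (v G) (Ico 0 T)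
  -- the correction
  vw : ∀ G, ∀ t ∈ Ico 0 T, |√(w (2 * G) t ^ 2 + κ ^ 2 * w (2 * G + 1) t ^ 2) - v G t| ≤
    N₂ / Q * (Tk κ lam L x w (2 * G) t / L (2 * G))
  -- the corrected other modes
  dv : ∀ G, ∀ t ∈ Ico 0 T, ∃ D, HasDerivWithinAt (fun τ => v G τ ^ 2) D (Ico 0 T) t ∧
    D ≤ 2 * v G t * (
      -((if G = 0 then 0 else 1 / 1000 * (L (2 * G) / lam)) * v G t)
      + N₂ * (L (2 * G) * (At lam x w (2 * G) t + √(Yk κ x w (2 * G) t))) * v G t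
      + N₂ / Q * Rk κ lam L x w (2 * G) t
      + N₂ * (L (2 * G) * (Aw lam w (2 * G) t + √(Wk κ w (2 * G) t)) * √(Wk κ w (2 * G) t)
        + (if G = 0 then 0 else L (2 * G - 1) * Aw lam w (2 * G) t * w (2 * G - 1) t)))
  dY0 : ∀ t ∈ Ico 0 T, ∃ D, HasDerivWithinAt (Yk κ x w 0) D (Ico 0 T) t ∧ D ≤ 0
  dY : ∀ n, ∀ t ∈ Ico 0 T, ∃ D, HasDerivWithinAt (Yk κ x w (n + 1)) D (Ico 0 T) t ∧
    D ≤ 2 * (C n * L n * x n t ^ 2 + N * loc L x w (n + 1) t) * √(Yk κ x w (n + 1) t)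
      + 2 * (1001 / 1000 * Ut L x (n + 1) t + N * Uw L w (n + 1) t - ℓ (n + 1)) *
        Yk κ x w (n + 1) t
      + 2 * N * (Ut L x (n + 1) t + L (n + 1)) *
        (√(Yk κ x w (n + 1) t) * √(Wk κ w (n + 1) t))
      + 2 * N * (L n * At lam x w (n + 1) t * (|x n t| + w n t)) * √(Wk κ w (n + 1) t)
      + 2 * (if n % 2 = 0 then Q * N * L n * (w n t * w (n + 1) t) else 0)
  bdd : ∀ k : ℕ, ∀ T' < T, ∃ M, ∀ t ∈ Icc 0 T', ∀ n, L n ^ k * (|x n t| + w n t) ≤ M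
  en : ∀ t ∈ Ico 0 T, Yk κ x w 0 t ≤ A0 ^ 2
  x0 : x 0 0 = A0
  xs : ∀ n, x (n + 1) 0 = 0
  ws : ∀ n, w n 0 = 0

end Pool.Agent.Y6.S
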