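import Pool.Agent.Y6.S.Nf

/-! Statements of the steps: from the full system to the reduced system `SuR`, and to `SysR`. -/

open Set Filter Topology MeasureTheory

set_option autoImplicit false

namespace Pool.Agent.Y6.S

open Pool.Agent.Y5.D Pool.Agent.Y5.E
open Pool.Agent.Y5.F (Aq Awq Yk Wk)
open Pool.Agent.Y6.N (lin)
open Pool.Agent.Y5.S2 (Sq6 Rot2 Om Az Dis2 NSol2 Init2 S_DYN6)
open Pool.Agent.Y710.EP (nm Pg Pl Pu Pm Po ww ee sA sU lc InG InLow InUp Nice)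
open Pool.Agent.Y8.EP (Sq5 GrowE Grow5)

/-! ### Static estimates -/

/-- The parameters `Sq6` satisfy `Sq5` with other `ℓ`, so that the static estimates of `Y710.EP`
can be used. -/
def S_S65 : Prop := ∀ (κ μ lam Λ M : ℝ) (L C ℓ : ℕ → ℝ) (B : ℕ → ℕ → ℝ),
  Sq6 κ μ lam Λ M L C ℓ B → ∃ ℓ' : ℕ → ℝ, Sq5 κ μ lam Λ M L C ℓ' B

/-- Bilinear estimates: output in the group `n`, and output in the double group `G`. -/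
def S_KB : Prop := ∀ (J : Type) (g : J → ℕ) (κ μ lam Λ M : ℝ) (L C ℓ : ℕ → ℝ)
  (B : ℕ → ℕ → ℝ) (c : Ix J → Ix J → Ix J → ℝ), Ker g Λ M L C B c →
  Sq5 κ μ lam Λ M L C ℓ B → ∃ N₀ : ℝ, 1 ≤ N₀ ∧
  ∀ (n : ℕ) (α β γ : Ix J → ℝ) (b b' : ℕ → ℝ), Nice g L α → Nice g L β → Nice g L γ →
    ((∀ i, gr g i ≠ n → α i = 0) ∨ (n % 2 = 0 ∧ ∀ i, gr g i / 2 ≠ n / 2 → α i = 0)) →
    (∀ p, nm (Pg g p β) ≤ b p) → (∀ p, nm (Pg g p γ) ≤ b' p) →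
    |tl c α β γ| ≤ N₀ * nm α * (L n * (
      (sA (Λ / lam) b n + nm (Pu g n β)) * (nm (Pu g n γ) + if n = 0 then 0 else b' (n - 1))
      + (sA (Λ / lam) b' n + nm (Pu g n γ)) * (nm (Pu g n β) + if n = 0 then 0 else b (n - 1))))

/-- Rapidly decreasing vectors are nice; the class is stable under all operations. -/
def S_RAP : Prop := ∀ (J : Type) (g : J → ℕ) (σ : J → J) (τ : J → ℝ)
  (κ μ lam Λ M a D₁ : ℝ) (L C ℓ : ℕ → ℝ) (B : ℕ → ℕ → ℝ) (D : Ix J → Ix J → ℝ)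
  (c : Ix J → Ix J → Ix J → ℝ), Ker g Λ M L C B c → Sq6 κ μ lam Λ M L C ℓ B → Rot2 g σ τ →
  Dis2 g a D₁ κ L ℓ D →
  (∀ z, Rp g L z → Nice g L z) ∧
  (∀ T u, RpU g L T u → ∀ t ∈ Ico 0 T, Rp g L (fun i => u i t)) ∧
  (∀ T Q (z : Ix J → ℝ → ℝ), NSol2 Q κ L g σ τ D c T z → RpU g L T z) ∧
  (∀ T u, RpU g L T u → RpU g L T (fun i t => Pm (fun b => u b t) i)) ∧
  (∀ T u, RpU g L T u → RpU g L T (fun i t => Po (fun b => u b t) i)) ∧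
  (∀ T u, RpU g L T u → RpU g L T (fun i t => rt σ τ (fun b => u b t) i)) ∧
  (∀ T u ω X, (∀ q, |ω q| ≤ X) → RpU g L T u → RpU g L T (fun i t => wt g ω (fun b => u b t) i)) ∧
  (∀ T u v, RpU g L T u → RpU g L T v →
    RpU g L T (fun i t => bl c (fun b => u b t) (fun b => v b t) i)) ∧
  (∀ T u, RpU g L T u → RpU g L T (fun i t => lin D (fun b => u b t) i)) ∧
  (∀ z, Rp g L z → Rp g L (Pm z)) ∧ (∀ z, Rp g L z → Rp g L (Po z)) ∧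
  (∀ z, Rp g L z → Rp g L (rt σ τ z)) ∧
  (∀ z ω X, (∀ q, |ω q| ≤ X) → Rp g L z → Rp g L (wt g ω z)) ∧
  (∀ z y, Rp g L z → Rp g L y → Rp g L (bl c z y)) ∧
  (∀ z, Rp g L z → Rp g L (lin D z)) ∧ (∀ z, Rp g L z → Rp g L (rr D c z))

/-- Derivatives of the bilinear and the linear terms. -/
def S_CALC : Prop := ∀ (J : Type) (g : J → ℕ) (κ μ lam Λ M a D₁ : ℝ) (L C ℓ : ℕ → ℝ)
  (B : ℕ → ℕ → ℝ) (D : Ix J → Ix J → ℝ) (c : Ix J → Ix J → Ix J → ℝ), Ker g Λ M L C B c →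
  Sq6 κ μ lam Λ M L C ℓ B → Dis2 g a D₁ κ L ℓ D →
  ∀ (T : ℝ) (u v u' v' : Ix J → ℝ → ℝ), RpU g L T u → RpU g L T v → RpU g L T u' →
    RpU g L T v' → (∀ i, ∀ t ∈ Ico 0 T, HasDerivWithinAt (u i) (u' i t) (Ico 0 T) t) →
    (∀ i, ∀ t ∈ Ico 0 T, HasDerivWithinAt (v i) (v' i t) (Ico 0 T) t) →
    (∀ i, ∀ t ∈ Ico 0 T, HasDerivWithinAt (fun s => bl c (fun b => u b s) (fun b => v b s) i)
      (bl c (fun b => u' b t) (fun b => v b t) i + bl c (fun b => u b t) (fun b => v' b t) i)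
      (Ico 0 T) t) ∧
    ∀ i, ∀ t ∈ Ico 0 T, HasDerivWithinAt (fun s => lin D (fun b => u b s) i)
      (lin D (fun b => u' b t) i) (Ico 0 T) t

/-- The normal form: the equation of the corrected other modes. -/
def S_NF : Prop := ∀ (J : Type) (g : J → ℕ) (σ : J → J) (τ : J → ℝ)
  (κ μ lam Λ M a D₁ : ℝ) (L C ℓ : ℕ → ℝ) (B : ℕ → ℕ → ℝ) (D : Ix J → Ix J → ℝ)
  (c : Ix J → Ix J → Ix J → ℝ), Ker g Λ M L C B c → Sq6 κ μ lam Λ M L C ℓ B → Rot2 g σ τ →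
  Dis2 g a D₁ κ L ℓ D → ∀ (Q T : ℝ) (z : Ix J → ℝ → ℝ), 0 < Q →
    NSol2 Q κ L g σ τ D c T z → ∀ G i, ∀ t ∈ Ico 0 T,
    HasDerivWithinAt (fun s => vv g σ τ D c (Om Q κ L) G (fun b => z b s) i)
      (Om Q κ L G * rt σ τ (vv g σ τ D c (Om Q κ L) G (fun b => z b t)) i
        + ff g σ τ D c (Om Q κ L) G (fun b => z b t) i) (Ico 0 T) t

/-- `rr` is bounded by `TS` in every group. -/
def S_RB : Prop := ∀ (J : Type) (g : J → ℕ) (κ μ lam Λ M a D₁ : ℝ) (L C ℓ : ℕ → ℝ)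
  (B : ℕ → ℕ → ℝ) (D : Ix J → Ix J → ℝ) (c : Ix J → Ix J → Ix J → ℝ), Ker g Λ M L C B c →
  Sq6 κ μ lam Λ M L C ℓ B → Dis2 g a D₁ κ L ℓ D → ∃ N₁ : ℝ, 1 ≤ N₁ ∧
  ∀ z, Rp g L z → Summable (fun p => TS κ (Λ / lam) L g z p ^ 2) ∧
    ∀ p, nm (Pg g p (rr D c z)) ≤ N₁ * TS κ (Λ / lam) L g z p

/-- Sizes of rotated and weighted vectors. -/
def S_WT : Prop := ∀ (J : Type) (g : J → ℕ) (σ : J → J) (τ : J → ℝ)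
  (κ μ lam Λ M : ℝ) (L C ℓ : ℕ → ℝ) (B : ℕ → ℕ → ℝ)
  (c : Ix J → Ix J → Ix J → ℝ), Ker g Λ M L C B c → Sq6 κ μ lam Λ M L C ℓ B → Rot2 g σ τ →
  ∀ z : Ix J → ℝ, Nice g L z →
    -- weights
    (∀ (ω : ℕ → ℝ) (X : ℝ), (∀ q, |ω q| ≤ X) → (∀ p, nm (Pg g p (wt g ω z)) ≤ X * ww g z p) ∧
      ∀ m, nm (Pu g m (wt g ω z)) ≤ X * nm (Pu g m (Po z))) ∧
    (∀ Q G q, 0 < Q → |wα (Om Q κ L) G q| ≤ 2 / Om Q κ L G ∧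
      |wβ (Om Q κ L) G q| ≤ 2 / Om Q κ L G) ∧
    -- rotations
    (∀ p, ww g (rt σ τ z) p ≤ ww g z (2 * (p / 2)) + ww g z (2 * (p / 2) + 1)) ∧
    (∀ G, nm (Pu g (2 * G) (Po (rt σ τ z))) = nm (Pu g (2 * G) (Po z))) ∧
    (∀ G, nm (wt g (w1 G) (rt σ τ z)) = nm (wt g (w1 G) z)) ∧
    (∀ G, ∑' i, wt g (w1 G) z i * rt σ τ (wt g (w1 G) z) i = 0)

/-- The static estimates of the normal form. -/
def S_EST7 : Prop := ∀ (J : Type) (g : J → ℕ) (σ : J → J) (τ : J → ℝ)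
  (κ μ lam Λ M a D₁ : ℝ) (L C ℓ : ℕ → ℝ) (B : ℕ → ℕ → ℝ) (D : Ix J → Ix J → ℝ)
  (c : Ix J → Ix J → Ix J → ℝ), Ker g Λ M L C B c → Sq6 κ μ lam Λ M L C ℓ B → Rot2 g σ τ →
  Dis2 g a D₁ κ L ℓ D → 0 < a → ∃ N₂ : ℝ, 1 ≤ N₂ ∧ ∀ (Q : ℝ) (G : ℕ) (z : Ix J → ℝ), 1 ≤ Q →
    Rp g L z →
    nm (fun i => wt g (w1 G) z i - vv g σ τ D c (Om Q κ L) G z i) ≤
      N₂ / (Q * (κ ^ (2 * G) * L (2 * G))) * TS κ (Λ / lam) L g z (2 * G) ∧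
    ∑' i, vv g σ τ D c (Om Q κ L) G z i * ff g σ τ D c (Om Q κ L) G z i ≤
      nm (vv g σ τ D c (Om Q κ L) G z) * (
        -((if G = 0 then 0 else 1 / 1000 * (κ ^ (2 * G) * L (2 * G) / μ)) *
          nm (vv g σ τ D c (Om Q κ L) G z))
        + N₂ * (L (2 * G) * (sA (Λ / lam) (ee g z) (2 * G) + nm (Pu g (2 * G) z))) *
          nm (vv g σ τ D c (Om Q κ L) G z)
        + N₂ / (Q * κ ^ (2 * G)) * RS κ (Λ / lam) L g z (2 * G)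
        + N₂ * WS (Λ / lam) L g z (2 * G))

/-- Sizes of the corrections `X1`, `X2`. -/
def S_XE1 : Prop := ∀ (J : Type) (g : J → ℕ) (σ : J → J) (τ : J → ℝ)
  (κ μ lam Λ M a D₁ : ℝ) (L C ℓ : ℕ → ℝ) (B : ℕ → ℕ → ℝ) (D : Ix J → Ix J → ℝ)
  (c : Ix J → Ix J → Ix J → ℝ), Ker g Λ M L C B c → Sq6 κ μ lam Λ M L C ℓ B → Rot2 g σ τ →
  Dis2 g a D₁ κ L ℓ D → 0 < a → ∃ N₂ : ℝ, 1 ≤ N₂ ∧ ∀ (Q : ℝ) (G : ℕ) (z : Ix J → ℝ), 1 ≤ Q →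
    Rp g L z →
    nm (wt g (w1 G) (X1 g D c (Om Q κ L) G z)) ≤
      N₂ / (Q * (κ ^ (2 * G) * L (2 * G))) * TS κ (Λ / lam) L g z (2 * G) ∧
    nm (wt g (w1 G) (X2 g σ τ c (Om Q κ L) G z)) ≤
      N₂ / (Q * (κ ^ (2 * G) * L (2 * G))) * TS κ (Λ / lam) L g z (2 * G)

/-- Sizes of the remainders `E1`, `E2`. -/
def S_XE2 : Prop := ∀ (J : Type) (g : J → ℕ) (σ : J → J) (τ : J → ℝ)
  (κ μ lam Λ M a D₁ : ℝ) (L C ℓ : ℕ → ℝ) (B : ℕ → ℕ → ℝ) (D : Ix J → Ix J → ℝ)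
  (c : Ix J → Ix J → Ix J → ℝ), Ker g Λ M L C B c → Sq6 κ μ lam Λ M L C ℓ B → Rot2 g σ τ →
  Dis2 g a D₁ κ L ℓ D → 0 < a → ∃ N₂ : ℝ, 1 ≤ N₂ ∧ ∀ (Q : ℝ) (G : ℕ) (z : Ix J → ℝ), 1 ≤ Q →
    Rp g L z →
    nm (wt g (w1 G) (E1 g D c (Om Q κ L) G z)) ≤
      N₂ / (Q * κ ^ (2 * G)) * RS κ (Λ / lam) L g z (2 * G) ∧
    nm (wt g (w1 G) (E2 g σ τ D c (Om Q κ L) G z)) ≤
      N₂ / (Q * κ ^ (2 * G)) * RS κ (Λ / lam) L g z (2 * G)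

def S_XEA1 : Prop := S_S65 → S_KB → S_RAP → S_WT → S_XE1

def S_XEA2 : Prop := S_S65 → S_KB → S_RAP → S_RB → S_WT → S_XE2

/-- The static estimates of the normal form, from the sizes. -/
def S_ESTA7 : Prop := S_S65 → S_KB → S_RAP → S_RB → S_WT → S_XE1 → S_XE2 → S_EST7

/-- Static estimates for the main modes and the tail energies. -/
def S_XST : Prop := ∀ (J : Type) (g : J → ℕ) (κ μ lam Λ M a D₁ : ℝ) (L C ℓ : ℕ → ℝ)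
  (B : ℕ → ℕ → ℝ) (D : Ix J → Ix J → ℝ) (c : Ix J → Ix J → Ix J → ℝ), Ker g Λ M L C B c →
  Sq6 κ μ lam Λ M L C ℓ B → Dis2 g a D₁ κ L ℓ D → 0 < a → ∀ z : Ix J → ℝ, Rp g L z →
  (∀ n, |bl c z z (Sum.inl n) - lin D z (Sum.inl n) - vf3 L C ℓ B (fun m => z (Sum.inl m)) n| ≤
    10 ^ 7 * M ^ 4 * (
      L n * (κ ^ n + sA (Λ / lam) (ee g z) n + nm (Pu g n z)) * nm (Pu g n (Po z))
      + sU L (ww g z) n * nm (Pu g n z)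
      + L n * sA (Λ / lam) (ww g z) n * nm (Pu g (n + 1) z) + lc L g z n)) ∧
  0 ≤ ∑' i, z i * lin D z i ∧
  ∀ n, 2 * tl c (Pu g (n + 1) z) z z - 2 * ∑' i, Pu g (n + 1) z i * lin D z i ≤
    2 * (C n * L n * z (Sum.inl n) ^ 2 + 10 ^ 7 * M ^ 4 * lc L g z (n + 1)) *
      nm (Pu g (n + 1) z)
    + 2 * (1001 / 1000 * sU L (fun q => |z (Sum.inl q)|) (n + 1)
      + 10 ^ 7 * M ^ 4 * sU L (ww g z) (n + 1) - ℓ (n + 1)) * nm (Pu g (n + 1) z) ^ 2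
    + 2 * (10 ^ 7 * M ^ 4) * (sU L (fun q => |z (Sum.inl q)|) (n + 1)
      + κ ^ (n + 1) * L (n + 1)) * (nm (Pu g (n + 1) z) * nm (Pu g (n + 1) (Po z)))
    + 2 * (10 ^ 7 * M ^ 4) * (L n * sA (Λ / lam) (ee g z) (n + 1) * ee g z n) *
      nm (Pu g (n + 1) (Po z))

/-! ### The reduced system -/

/-- The main modes and the tail energies. -/
def S_PERTX : Prop := ∀ (J : Type) (g : J → ℕ) (σ : J → J) (τ : J → ℝ)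
  (κ μ lam Λ M a D₁ : ℝ) (L C ℓ : ℕ → ℝ) (B : ℕ → ℕ → ℝ) (D : Ix J → Ix J → ℝ)
  (c : Ix J → Ix J → Ix J → ℝ), Ker g Λ M L C B c → Sq6 κ μ lam Λ M L C ℓ B → Rot2 g σ τ →
  Dis2 g a D₁ κ L ℓ D → 0 < a → ∀ (Q A0 T : ℝ) (z x w : _), 0 < Q →
    NSol2 Q κ L g σ τ D c T z → Init2 A0 z → x = (fun n => z (Sum.inl n)) → w = wz g z →
  ∃ f : ℕ → ℝ → ℝ,
  (∀ n, ∀ t ∈ Ico 0 T, HasDerivWithinAt (x n)
    (vf3 L C ℓ B (fun m => x m t) n + f n t) (Ico 0 T) t) ∧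
  (∀ n, ∀ t ∈ Ico 0 T, |f n t| ≤ 10 ^ 7 * M ^ 4 * (
    L n * (κ ^ n + Aq (Λ / lam) x w n t + √(Yt x w n t)) * √(Wt w n t)
    + Uw L w n t * √(Yt x w n t) + L n * Awq (Λ / lam) w n t * √(Yt x w (n + 1) t)
    + loc L x w n t)) ∧
  (∀ n, ∀ t ∈ Ico 0 T, 0 ≤ w n t) ∧ (∀ n, ContinuousOn (w n) (Ico 0 T)) ∧
  (∀ t ∈ Ico 0 T, ∃ D', HasDerivWithinAt (Yt x w 0) D' (Ico 0 T) t ∧ D' ≤ 0) ∧
  (∀ n, ∀ t ∈ Ico 0 T, ∃ D', HasDerivWithinAt (Yt x w (n + 1)) D' (Ico 0 T) t ∧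
    D' ≤ 2 * (C n * L n * x n t ^ 2 + 10 ^ 7 * M ^ 4 * loc L x w (n + 1) t) *
        √(Yt x w (n + 1) t)
      + 2 * (1001 / 1000 * Ut L x (n + 1) t + 10 ^ 7 * M ^ 4 * Uw L w (n + 1) t - ℓ (n + 1)) *
        Yt x w (n + 1) t
      + 2 * (10 ^ 7 * M ^ 4) * (Ut L x (n + 1) t + κ ^ (n + 1) * L (n + 1)) *
        (√(Yt x w (n + 1) t) * √(Wt w (n + 1) t))
      + 2 * (10 ^ 7 * M ^ 4) * (L n * Aq (Λ / lam) x w (n + 1) t * (|x n t| + w n t)) *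
        √(Wt w (n + 1) t)
      + 2 * (if n % 2 = 0 then Q * (κ ^ n * L n) * (w n t * w (n + 1) t) else 0)) ∧
  (∀ k : ℕ, ∀ T' < T, ∃ X, ∀ t ∈ Icc 0 T', ∀ n, L n ^ k * (|x n t| + w n t) ≤ X) ∧
  (∀ t ∈ Ico 0 T, Yt x w 0 t ≤ A0 ^ 2)

/-- The main modes and the tail energies, from the static estimates. -/
def S_PERTXA : Prop := S_S65 → S_RAP → S_CALC → S_XST → S_PERTX

/-- The corrected other modes. -/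
def S_PERTV : Prop := ∀ (J : Type) (g : J → ℕ) (σ : J → J) (τ : J → ℝ)
  (κ μ lam Λ M a D₁ : ℝ) (L C ℓ : ℕ → ℝ) (B : ℕ → ℕ → ℝ) (D : Ix J → Ix J → ℝ)
  (c : Ix J → Ix J → Ix J → ℝ), Ker g Λ M L C B c → Sq6 κ μ lam Λ M L C ℓ B → Rot2 g σ τ →
  Dis2 g a D₁ κ L ℓ D → 0 < a → ∃ N₂ : ℝ, 1 ≤ N₂ ∧ ∀ (Q T : ℝ) (z x w v : _), 1 ≤ Q →
    NSol2 Q κ L g σ τ D c T z → x = (fun n => z (Sum.inl n)) → w = wz g z →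
    v = (fun G t => nm (vv g σ τ D c (Om Q κ L) G (fun b => z b t))) →
    (∀ G, ContinuousOn (v G) (Ico 0 T)) ∧
    (∀ G, ∀ t ∈ Ico 0 T, |√(w (2 * G) t ^ 2 + w (2 * G + 1) t ^ 2) - v G t| ≤
      N₂ / (Q * (κ ^ (2 * G) * L (2 * G))) * Tq κ (Λ / lam) L x w (2 * G) t) ∧
    (∀ G, ∀ t ∈ Ico 0 T, ∃ D', HasDerivWithinAt (fun s => v G s ^ 2) D' (Ico 0 T) t ∧
      D' ≤ 2 * v G t * (
        -((if G = 0 then 0 else 1 / 1000 * (κ ^ (2 * G) * L (2 * G) / μ)) * v G t)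
        + N₂ * (L (2 * G) * (Aq (Λ / lam) x w (2 * G) t + √(Yt x w (2 * G) t))) * v G t
        + N₂ / (Q * κ ^ (2 * G)) * Rq κ (Λ / lam) L x w (2 * G) t
        + N₂ * (L (2 * G) * (Awq (Λ / lam) w (2 * G) t + √(Wt w (2 * G) t)) *
            √(Wt w (2 * G) t)
          + (if G = 0 then 0 else
            L (2 * G - 1) * Awq (Λ / lam) w (2 * G) t * w (2 * G - 1) t))))

/-- The corrected other modes, from the normal form and the static estimates. -/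
def S_PERTVA : Prop := S_S65 → S_RAP → S_CALC → S_NF → S_WT → S_EST7 → S_PERTV

/-- The reduced system. -/
def S_PERTR : Prop := ∀ (J : Type) (g : J → ℕ) (σ : J → J) (τ : J → ℝ)
  (κ μ lam Λ M a D₁ : ℝ) (L C ℓ : ℕ → ℝ) (B : ℕ → ℕ → ℝ) (D : Ix J → Ix J → ℝ)
  (c : Ix J → Ix J → Ix J → ℝ), Ker g Λ M L C B c → Sq6 κ μ lam Λ M L C ℓ B → Rot2 g σ τ →
  Dis2 g a D₁ κ L ℓ D → 0 < a → ∃ N₂ : ℝ, 1 ≤ N₂ ∧ ∀ (Q A0 T : ℝ) (z : Ix J → ℝ → ℝ), 1 ≤ Q →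
    NSol2 Q κ L g σ τ D c T z → Init2 A0 z → ∃ v f : ℕ → ℝ → ℝ,
    SuR κ μ (Λ / lam) (10 ^ 7 * M ^ 4) N₂ Q A0 L C ℓ B T (fun n => z (Sum.inl n)) (wz g z) v f

/-- Rescaling of the reduced system. -/
def S_RESCR : Prop := ∀ (κ μ lam Λ M : ℝ) (L C ℓ : ℕ → ℝ) (B : ℕ → ℕ → ℝ),
  Sq6 κ μ lam Λ M L C ℓ B →
  Pe6 κ μ (10 ^ 6 * M ^ 4 * lam ^ 3) (fun n => κ ^ n * L n) (fun n => C n / κ) ℓ B ∧
  ∀ N₂ : ℝ, 1 ≤ N₂ → ∃ N₃ : ℝ, 1 ≤ N₃ ∧ ∀ (Q A0 T : ℝ) (x w v f : ℕ → ℝ → ℝ), 1 ≤ Q → 0 < T →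
    SuR κ μ (Λ / lam) (10 ^ 7 * M ^ 4) N₂ Q A0 L C ℓ B T x w v f →
    SysR κ μ (10 ^ 6 * M ^ 4 * lam ^ 3) N₃ Q A0 (fun n => κ ^ n * L n) (fun n => C n / κ) ℓ B T
      (fun n t => x n t / κ ^ n) (fun n t => w n t / κ ^ n) (fun G t => v G t / κ ^ (2 * G))
      (fun n t => f n t / κ ^ n) ∧
    (∀ m, ∀ t ∈ Ico 0 T, √(Yt x w m t) =
      κ ^ m * √(Yk κ (fun n t => x n t / κ ^ n) (fun n t => w n t / κ ^ n) m t)) ∧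
    (GrowE κ μ T (fun n t => x n t / κ ^ n) (fun n t => w n t / κ ^ n) → Grow5 κ μ T x w)

/-- The dynamics of the rescaled reduced system (helper8). -/
def S_ODER : Prop := ∀ (κ lam N N₂ : ℝ) (L C ℓ : ℕ → ℝ) (B : ℕ → ℕ → ℝ),
  Pe6 κ lam N L C ℓ B → 1 ≤ N₂ → ∃ Q₀ T₁ : ℝ, 1 ≤ Q₀ ∧ ∀ Q, Q₀ ≤ Q →
    ∀ (T : ℝ) (x w v f : ℕ → ℝ → ℝ), 0 < T →
    SysR κ lam N N₂ Q (3 / 2) L C ℓ B T x w v f →
    T ≤ T₁ ∧ (GrowE κ lam T x w ∨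
      ∃ (n₀ : ℕ) (K₀ : ℝ), ∃ s ∈ Ico 0 T, ∀ t ∈ Ico s T, ∀ k : ℕ,
        √(Yk κ x w (n₀ + k) t) ≤ K₀ * Real.exp (-(lam / 100 * k)))

/-- Assembly of the dynamics of the full system. -/
def S_DYNA : Prop := S_PERTR → S_RESCR → S_ODER → S_DYN6

end Pool.Agent.Y6.S
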